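import Pool.Agent.H.MP_1ca924_an.D

namespace Pool.Agent.Results.MP_1ca924_an.Main

open Set Metric Filter Topology Pool.Agent.H.MP_1ca924_an

theorem result : ∃ (Ω : Set ℂ) (y : ℂ), IsOpen Ω ∧ Bornology.IsBounded Ω ∧ y ∈ frontier Ω ∧ BReg Ω y ∧
    ¬∃ r : ℕ → ℝ, (∀ m, 0 < r m) ∧ Tendsto r atTop (𝓝 0) ∧ ∀ m, BReg (ball y (r m) ∩ Ω) y := main

end Pool.Agent.Results.MP_1ca924_an.Main
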